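import Mathlib
import Pool.Agent.Helper39.TW.Stmts

/-! Module CH: the walk part of the hub step. -/

set_option autoImplicit false

namespace TwoWalk

open Finset

variable {V : Type} [DecidableEq V]

/-- adding one visit of a new vertex -/
theorem CH_vis {S : Finset V} {f : V → ℕ} {t : V} (ht : t ∉ S) (hf : Vis S f) :
    Vis (insert t S) (fun v => f v + if v = t then 1 else 0) := by
  refine ⟨?_, ?_⟩
  · intro v hv
    dsimp only
    rcases mem_insert.mp hv with h | h
    · rw [h, hf.2 t ht, if_pos rfl]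
      exact Or.inl rfl
    · have : v ≠ t := fun he => ht (he ▸ h)
      rw [if_neg this, add_zero]
      exact hf.1 v h
  · intro v hv
    rw [mem_insert, not_or] at hv
    dsimp only
    rw [if_neg hv.1, hf.2 v hv.2]

theorem CH_dbl {S : Finset V} {f : V → ℕ} {t : V} (ht : t ∉ S) (hf : Vis S f) :
    dbl (insert t S) (fun v => f v + if v = t then 1 else 0) = dbl S f := by
  unfold dbl
  congr 1
  ext v
  simp only [mem_filter, mem_insert]
  constructor
  · rintro ⟨h | h, h2⟩
    · rw [h, hf.2 t ht, if_pos rfl] at h2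
      omega
    · have : v ≠ t := fun he => ht (he ▸ h)
      rw [if_neg this, add_zero] at h2
      exact ⟨h, h2⟩
  · rintro ⟨h, h2⟩
    have : v ≠ t := fun he => ht (he ▸ h)
    rw [if_neg this, add_zero]
    exact ⟨Or.inr h, h2⟩

/-- extending an open walk by an edge to a new vertex -/
theorem CH_ext (h0 : ST_W0) (h1 : ST_W1) {G : SimpleGraph V} {s u t : V} {f : V → ℕ}
    (hf : OW G s u f) (htu : G.Adj t u) :
    OW G s t (fun v => f v + if v = t then 1 else 0) :=
  h1 V G s u t t f _ hf htu.symm (h0 V G t)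

theorem st_CH1 (h0 : ST_W0) (h1 : ST_W1) (h3 : ST_W3) (h6 : ST_W6) : ST_CH1 := by
  intro V _ G S u v s t ht hu hv hs huv hsu hsv htu htv hP
  obtain ⟨f₁, f₂, f₃, v₁, v₂, v₃, w₁, e₁, w₂, e₂, w₃, e₃, hsum⟩ := hP
  have hst : s ≠ t := fun he => ht (he ▸ hs)
  have hcard : (insert t S).card = S.card + 1 := card_insert_of_notMem ht
  have hclosed : CW G (fun w => f₃ w + if w = t then 1 else 0) := h6 V G u v t f₃ w₃ htu htv
  have hopen₂ : OW G s t (fun w => f₂ w + if w = t then 1 else 0) :=
    CH_ext h0 h1 (h3 V G u s f₂ w₂) htu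
  have hopen₁ : OW G s t (fun w => f₁ w + if w = t then 1 else 0) :=
    CH_ext h0 h1 (h3 V G v s f₁ w₁) htv
  have hs3 : (fun w => f₃ w + if w = t then 1 else 0) s = 1 := by
    dsimp only
    rw [if_neg hst, e₃]
  have htt : ∀ f : V → ℕ, Vis S f → (fun w => f w + if w = t then 1 else 0) t = 1 := by
    intro f hf
    dsimp only
    rw [if_pos rfl, hf.2 t ht]
  rcases le_total (dbl S f₁) (dbl S f₂) with hle | hle
  · refine ⟨_, _, CH_vis ht v₃, CH_vis ht v₁, hclosed, hopen₁, hs3, htt f₃ v₃, htt f₁ v₁, ?_⟩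
    rw [CH_dbl ht v₃, CH_dbl ht v₁, hcard]
    omega
  · refine ⟨_, _, CH_vis ht v₃, CH_vis ht v₂, hclosed, hopen₂, hs3, htt f₃ v₃, htt f₂ v₂, ?_⟩
    rw [CH_dbl ht v₃, CH_dbl ht v₂, hcard]
    omega

theorem st_CH2 (h0 : ST_W0) (h1 : ST_W1) (h4 : ST_W4) (h6 : ST_W6) : ST_CH2 := by
  intro V _ G S u v t ht hu hv huv htu htv hP
  obtain ⟨h, p, q, vh, vp, vq, ch, wp, wq, hu1, hv1, pv, qu, hs1, hs2⟩ := hP
  have hut : u ≠ t := fun he => ht (he ▸ hu)
  have hcard : (insert t S).card = S.card + 1 := card_insert_of_notMem ht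
  have hclosed : CW G (fun w => q w + if w = t then 1 else 0) := h6 V G u v t q wq htu htv
  have hqu : (fun w => q w + if w = t then 1 else 0) u = 1 := by
    dsimp only
    rw [if_neg hut, qu]
  have htt : ∀ f : V → ℕ, Vis S f → (fun w => f w + if w = t then 1 else 0) t = 1 := by
    intro f hf
    dsimp only
    rw [if_pos rfl, hf.2 t ht]
  rcases le_total (dbl S q) (dbl S h + 1) with hle | hle
  · refine ⟨_, _, CH_vis ht vq, CH_vis ht vq, hclosed, CH_ext h0 h1 wq htv, hqu, htt q vq,
      htt q vq, ?_⟩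
    rw [CH_dbl ht vq, hcard]
    omega
  · -- the closed walk started at `u`
    have hopen : OW G u u (fun w => (if w = u then 1 else 0) + h w) :=
      h4 V G u u u _ h (h0 V G u) ch (by rw [if_pos rfl]; exact one_ne_zero)
        (by rw [hu1]; exact one_ne_zero)
    have hvis : Vis S (fun w => (if w = u then 1 else 0) + h w) := by
      refine ⟨?_, ?_⟩
      · intro w hw
        dsimp only
        by_cases hwu : w = u
        · rw [hwu, if_pos rfl, hu1]
          exact Or.inr rfl
        · rw [if_neg hwu, zero_add]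
          exact vh.1 w hw
      · intro w hw
        have hwu : w ≠ u := fun he => hw (he ▸ hu)
        dsimp only
        rw [if_neg hwu, zero_add]
        exact vh.2 w hw
    have hdbl : dbl S (fun w => (if w = u then 1 else 0) + h w) = dbl S h + 1 := by
      unfold dbl
      have : S.filter (fun w => (if w = u then 1 else 0) + h w = 2)
          = insert u (S.filter (fun w => h w = 2)) := by
        ext w
        simp only [mem_filter, mem_insert]
        by_cases hwu : w = u
        · simp only [hwu, if_true, hu1, true_or, hu, and_true]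
        · simp only [hwu, if_false, zero_add, false_or]
      rw [this, card_insert_of_notMem]
      rw [mem_filter, hu1]
      simp
    refine ⟨_, _, CH_vis ht vq, CH_vis ht hvis, hclosed, CH_ext h0 h1 hopen htu, hqu, htt q vq,
      htt _ hvis, ?_⟩
    rw [CH_dbl ht vq, CH_dbl ht hvis, hcard, hdbl]
    omega

theorem st_CHH (h3 : ST_W3) : ST_CHH := by
  intro V _ G S x y hxy hyx
  obtain ⟨h, p, vh, vp, ch, wp, hx, hy, py, hs⟩ := hxy
  obtain ⟨h', q, vh', vq, ch', wq, hy', hx', qx, hs'⟩ := hyx
  have wq' := h3 V G y x q wq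
  rcases le_total (dbl S h) (dbl S h') with hle | hle
  · exact ⟨h, p, q, vh, vp, vq, ch, wp, wq', hx, hy, py, qx, hs, by omega⟩
  · exact ⟨h', p, q, vh', vp, vq, ch', wp, wq', hx', hy', py, qx, by omega, hs'⟩

end TwoWalk
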