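import Mathlib
import Pool.Agent.Helper39.TW.Stmts

/-! Module CS: symmetries, and the walk part of the split at a cut vertex. -/

set_option autoImplicit false

namespace TwoWalk

open Finset

theorem st_SYM (h3 : ST_W3) : ST_SYM := by
  intro V _ G S x y b
  refine ⟨?_, ?_, ?_⟩
  · rintro ⟨h, p, q, vh, vp, vq, ch, wp, wq, hx, hy, py, qx, hs, hs'⟩
    exact ⟨h, q, p, vh, vq, vp, ch, h3 V G x y q wq, h3 V G x y p wp, hy, hx, qx, py, hs', hs⟩
  · rintro ⟨f₁, f₂, f₃, v₁, v₂, v₃, w₁, e₁, w₂, e₂, w₃, e₃, hsum⟩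
    exact ⟨f₂, f₁, f₃, v₂, v₁, v₃, w₂, e₂, w₁, e₁, h3 V G x y f₃ w₃, e₃, by omega⟩
  · rintro ⟨f₁, f₂, f₃, v₁, v₂, v₃, w₁, e₁, w₂, e₂, w₃, e₃, hsum⟩
    exact ⟨f₁, f₃, f₂, v₁, v₃, v₂, h3 V G y b f₁ w₁, e₁, w₃, e₃, w₂, e₂, by omega⟩

variable {V : Type} [DecidableEq V]

/-- gluing at `z` -/
theorem CS_glue {S₁ S₂ : Finset V} {z : V} (hS : S₁ ∩ S₂ = {z}) {f g : V → ℕ} (hf : Vis S₁ f)
    (hg : Vis S₂ g) (hz : f z = 1) :
    Vis (S₁ ∪ S₂) (fun v => f v + g v - if v = z then 1 else 0) ∧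
      dbl (S₁ ∪ S₂) (fun v => f v + g v - if v = z then 1 else 0) = dbl S₁ f + dbl S₂ g := by
  have hz12 : z ∈ S₁ ∩ S₂ := by rw [hS]; exact mem_singleton_self z
  rw [mem_inter] at hz12
  have hdis : ∀ v, v ∈ S₁ → v ≠ z → v ∉ S₂ := by
    intro v h1 hne h2
    have : v ∈ S₁ ∩ S₂ := mem_inter.2 ⟨h1, h2⟩
    rw [hS, mem_singleton] at this
    exact hne this
  -- values
  have e1 : ∀ v, v ∈ S₁ → v ≠ z → f v + g v - (if v = z then 1 else 0) = f v := by
    intro v h1 hne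
    rw [if_neg hne, hg.2 v (hdis v h1 hne)]
    omega
  have e2 : ∀ v, v ∈ S₂ → f v + g v - (if v = z then 1 else 0) = g v := by
    intro v h2
    by_cases hne : v = z
    · rw [hne, if_pos rfl, hz]
      omega
    · have h1 : v ∉ S₁ := fun h1 => hdis v h1 hne h2
      rw [if_neg hne, hf.2 v h1]
      omega
  refine ⟨⟨?_, ?_⟩, ?_⟩
  · intro v hv
    dsimp only
    by_cases h2 : v ∈ S₂
    · rw [e2 v h2]
      exact hg.1 v h2
    · have h1 : v ∈ S₁ := by
        rcases mem_union.1 hv with h | h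
        · exact h
        · exact absurd h h2
      have hne : v ≠ z := fun he => h2 (he ▸ hz12.2)
      rw [e1 v h1 hne]
      exact hf.1 v h1
  · intro v hv
    rw [mem_union, not_or] at hv
    dsimp only
    rw [hf.2 v hv.1, hg.2 v hv.2]
    omega
  · unfold dbl
    rw [← card_union_of_disjoint]
    · congr 1
      ext v
      simp only [mem_union, mem_filter]
      constructor
      · rintro ⟨hv, h⟩
        by_cases h2 : v ∈ S₂
        · rw [e2 v h2] at h
          exact Or.inr ⟨h2, h⟩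
        · have h1 : v ∈ S₁ := by
            rcases hv with h' | h'
            · exact h'
            · exact absurd h' h2
          have hne : v ≠ z := fun he => h2 (he ▸ hz12.2)
          rw [e1 v h1 hne] at h
          exact Or.inl ⟨h1, h⟩
      · rintro (⟨h1, h⟩ | ⟨h2, h⟩)
        · have hne : v ≠ z := by
            intro he
            rw [he, hz] at h
            omega
          rw [e1 v h1 hne]
          exact ⟨Or.inl h1, h⟩
        · rw [e2 v h2]
          exact ⟨Or.inr h2, h⟩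
    · rw [disjoint_left]
      intro v h1 h2
      rw [mem_filter] at h1 h2
      have hne : v ≠ z := by
        intro he
        rw [he, hz] at h1
        omega
      exact hdis v h1.1 hne h2.1

/-- gluing at `z`, symmetric version -/
theorem CS_glue' {S₁ S₂ : Finset V} {z : V} (hS : S₁ ∩ S₂ = {z}) {f g : V → ℕ} (hf : Vis S₁ f)
    (hg : Vis S₂ g) (hz : g z = 1) :
    Vis (S₁ ∪ S₂) (fun v => f v + g v - if v = z then 1 else 0) ∧
      dbl (S₁ ∪ S₂) (fun v => f v + g v - if v = z then 1 else 0) = dbl S₁ f + dbl S₂ g := by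
  have h := CS_glue (S₁ := S₂) (S₂ := S₁) (by rw [inter_comm]; exact hS) hg hf hz
  have he : (fun v => f v + g v - if v = z then 1 else 0)
      = (fun v => g v + f v - if v = z then 1 else 0) := by
    funext v
    rw [add_comm (f v)]
  rw [he, union_comm S₁ S₂, add_comm (dbl S₁ f)]
  exact h

/-- inserting at `z` -/
theorem CS_host {S₁ S₂ : Finset V} {z : V} (hS : S₁ ∩ S₂ = {z}) {f g : V → ℕ} (hf : Vis S₁ f)
    (hg : Vis S₂ g) (hz : f z = 1) (hz' : g z = 1) :
    Vis (S₁ ∪ S₂) (fun v => f v + g v) ∧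
      dbl (S₁ ∪ S₂) (fun v => f v + g v) = dbl S₁ f + dbl S₂ g + 1 := by
  have hz12 : z ∈ S₁ ∩ S₂ := by rw [hS]; exact mem_singleton_self z
  rw [mem_inter] at hz12
  obtain ⟨hv, hd⟩ := CS_glue hS hf hg hz
  have e1 : ∀ v, v ≠ z → f v + g v = f v + g v - (if v = z then 1 else 0) := by
    intro v hne
    rw [if_neg hne]
    omega
  refine ⟨⟨?_, ?_⟩, ?_⟩
  · intro v hv'
    dsimp only
    by_cases hne : v = z
    · rw [hne, hz, hz']
      exact Or.inr rfl
    · rw [e1 v hne]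
      exact hv.1 v hv'
  · intro v hv'
    have hne : v ≠ z := fun he => hv' (he ▸ mem_union_left _ hz12.1)
    dsimp only
    rw [e1 v hne]
    exact hv.2 v hv'
  · rw [← hd]
    unfold dbl
    rw [← card_insert_of_notMem (a := z)]
    · congr 1
      ext v
      simp only [mem_insert, mem_filter]
      by_cases hne : v = z
      · rw [hne]
        simp only [hz, hz', true_or, iff_true]
        exact ⟨mem_union_left _ hz12.1, trivial⟩
      · rw [← e1 v hne]
        simp only [hne, false_or]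
    · rw [mem_filter]
      dsimp only
      rw [if_pos rfl, hz, hz']
      omega

theorem CS_card {S₁ S₂ : Finset V} {z : V} (hS : S₁ ∩ S₂ = {z}) :
    (S₁ ∪ S₂).card + 1 = S₁.card + S₂.card := by
  have := card_union_add_card_inter S₁ S₂
  rw [hS, card_singleton] at this
  exact this

theorem CS_notMem {S₁ S₂ : Finset V} {z x : V} (hS : S₁ ∩ S₂ = {z}) (hx : x ∈ S₁) (hxz : x ≠ z) :
    x ∉ S₂ := by
  intro h
  have : x ∈ S₁ ∩ S₂ := mem_inter.2 ⟨hx, h⟩
  rw [hS, mem_singleton] at this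
  exact hxz this

theorem CS_notMem' {S₁ S₂ : Finset V} {z x : V} (hS : S₁ ∩ S₂ = {z}) (hx : x ∈ S₂) (hxz : x ≠ z) :
    x ∉ S₁ := by
  intro h
  have : x ∈ S₁ ∩ S₂ := mem_inter.2 ⟨h, hx⟩
  rw [hS, mem_singleton] at this
  exact hxz this

theorem CS_val {S : Finset V} {f g : V → ℕ} {x z : V} (hg : Vis S g) (hx : x ∉ S) (hxz : x ≠ z)
    (hf : f x = 1) : (fun v => f v + g v - if v = z then 1 else 0) x = 1 := by
  dsimp only
  rw [if_neg hxz, hg.2 x hx, hf]

theorem CS_val' {S : Finset V} {f g : V → ℕ} {x z : V} (hf : Vis S f) (hx : x ∉ S) (hxz : x ≠ z)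
    (hg : g x = 1) : (fun v => f v + g v - if v = z then 1 else 0) x = 1 := by
  dsimp only
  rw [if_neg hxz, hf.2 x hx, hg]

omit [DecidableEq V] in
theorem CS_valh {S : Finset V} {f g : V → ℕ} {x : V} (hg : Vis S g) (hx : x ∉ S)
    (hf : f x = 1) : (fun v => f v + g v) x = 1 := by
  dsimp only
  rw [hg.2 x hx, hf]

omit [DecidableEq V] in
theorem CS_valh' {S : Finset V} {f g : V → ℕ} {x : V} (hf : Vis S f) (hx : x ∉ S)
    (hg : g x = 1) : (fun v => f v + g v) x = 1 := by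
  dsimp only
  rw [hf.2 x hx, hg]

theorem st_C2S (h2 : ST_W2) (h5 : ST_W5) : ST_C2S := by
  intro V _ G S₁ S₂ x y z hS hx hxz hy hyz hP₁ hP₂
  obtain ⟨a, p, q, va, vp, vq, ca, wp, wq, ax, az, pz, qx, s1, s2⟩ := hP₁
  obtain ⟨a', p', q', va', vp', vq', ca', wp', wq', az', ay', py', qz', s1', s2'⟩ := hP₂
  have hx2 := CS_notMem hS hx hxz
  have hy1 := CS_notMem' hS hy hyz
  have hc := CS_card hS
  obtain ⟨vH, dH⟩ := CS_host hS va va' az az'
  obtain ⟨vP, dP⟩ := CS_glue hS vp vp' pz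
  obtain ⟨vQ, dQ⟩ := CS_glue' hS vq vq' qz'
  refine ⟨_, _, _, vH, vP, vQ, h5 V G z a a' ca ca' (by omega) (by omega),
    h2 V G x z y p p' wp wp', h2 V G x z y q q' wq wq', CS_valh va' hx2 ax, CS_valh' va hy1 ay',
    CS_val' vp hy1 hyz py', CS_val vq' hx2 hxz qx, ?_, ?_⟩
  · rw [dH, dP]
    omega
  · rw [dH, dQ]
    omega

theorem st_C3S (h2 : ST_W2) (h3 : ST_W3) (h4 : ST_W4) : ST_C3S := by
  intro V _ G S₁ S₂ x y z b hS hx hxz hy hyz hb hbz hbx hP₁ hP₂
  obtain ⟨f₁, f₂, f₃, v₁, v₂, v₃, w₁, e₁, w₂, e₂, w₃, e₃, hsum⟩ := hP₁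
  obtain ⟨a', p', q', va', vp', vq', ca', wp', wq', az', ay', py', qz', s1', s2'⟩ := hP₂
  have hx2 := CS_notMem hS hx hxz
  have hb2 := CS_notMem hS hb hbz
  have hy1 := CS_notMem' hS hy hyz
  have hc := CS_card hS
  have hS' : S₂ ∩ S₁ = {z} := by rw [inter_comm]; exact hS
  obtain ⟨vU₁, dU₁⟩ := CS_glue hS' vq' v₁ qz'
  obtain ⟨vU₂, dU₂⟩ := CS_host hS v₂ va' e₂ az'
  obtain ⟨vU₃, dU₃⟩ := CS_glue' hS v₃ vq' qz'
  rw [union_comm] at vU₁ dU₁
  refine ⟨_, _, _, vU₁, vU₂, vU₃, h2 V G y z b q' f₁ (h3 V G z y q' wq') w₁,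
    CS_val' vq' hx2 hxz e₁, h4 V G x b z f₂ a' w₂ ca' (by omega) (by omega),
    CS_valh' v₂ hy1 ay', h2 V G x z y f₃ q' w₃ wq', CS_val vq' hb2 hbz e₃, ?_⟩
  rw [dU₁, dU₂, dU₃]
  omega

theorem st_C3Z (h2 : ST_W2) (h3 : ST_W3) (h4 : ST_W4) : ST_C3Z := by
  intro V _ G S₁ S₂ x y z hS hx hxz hy hyz hP₁ hP₂
  obtain ⟨a, p, q, va, vp, vq, ca, wp, wq, ax, az, pz, qx, s1, s2⟩ := hP₁
  obtain ⟨a', p', q', va', vp', vq', ca', wp', wq', az', ay', py', qz', s1', s2'⟩ := hP₂
  have hx2 := CS_notMem hS hx hxz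
  have hy1 := CS_notMem' hS hy hyz
  have hc := CS_card hS
  have hS' : S₂ ∩ S₁ = {z} := by rw [inter_comm]; exact hS
  obtain ⟨vU₁, dU₁⟩ := CS_host hS' vq' va qz' az
  obtain ⟨vU₂, dU₂⟩ := CS_host hS vp va' pz az'
  obtain ⟨vU₃, dU₃⟩ := CS_glue hS vp vq' pz
  rw [union_comm] at vU₁ dU₁
  refine ⟨_, _, _, vU₁, vU₂, vU₃, h4 V G y z z q' a (h3 V G z y q' wq') ca (by omega) (by omega),
    CS_valh' vq' hx2 ax, h4 V G x z z p a' wp ca' (by omega) (by omega), CS_valh' vp hy1 ay',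
    h2 V G x z y p q' wp wq', ?_, ?_⟩
  · rw [if_pos rfl, pz, qz']
  · rw [dU₁, dU₂, dU₃]
    omega

theorem st_CE (h0 : ST_W0) (h1 : ST_W1) (h6 : ST_W6) : ST_CE := by
  intro V _ G x y hxy hadj
  have hvis : Vis {x, y} (fun v : V => (if v = x then 1 else 0) + if v = y then 1 else 0) := by
    refine ⟨?_, ?_⟩
    · intro v hv
      rw [mem_insert, mem_singleton] at hv
      dsimp only
      rcases hv with h | h
      · rw [h, if_pos rfl, if_neg hxy]
        exact Or.inl rfl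
      · rw [h, if_pos rfl, if_neg (Ne.symm hxy)]
        exact Or.inl rfl
    · intro v hv
      rw [mem_insert, mem_singleton, not_or] at hv
      dsimp only
      rw [if_neg hv.1, if_neg hv.2]
  have hdbl : dbl {x, y} (fun v : V => (if v = x then 1 else 0) + if v = y then 1 else 0) = 0 := by
    unfold dbl
    rw [card_eq_zero, filter_eq_empty_iff]
    intro v _
    dsimp only
    by_cases h1 : v = x
    · rw [if_pos h1, if_neg (fun h2 => hxy (h1.symm.trans h2))]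
      omega
    · rw [if_neg h1]
      split_ifs <;> omega
  have hc : CW G (fun v : V => (if v = x then 1 else 0) + if v = y then 1 else 0) :=
    h6 V G x x y _ (h0 V G x) hadj.symm hadj.symm
  have ho : OW G x y (fun v : V => (if v = x then 1 else 0) + if v = y then 1 else 0) :=
    h1 V G x x y y _ _ (h0 V G x) hadj (h0 V G y)
  have ex : (fun v : V => (if v = x then 1 else 0) + if v = y then 1 else 0) x = 1 := by
    dsimp only
    rw [if_pos rfl, if_neg hxy]
  have ey : (fun v : V => (if v = x then 1 else 0) + if v = y then 1 else 0) y = 1 := by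
    dsimp only
    rw [if_pos rfl, if_neg (Ne.symm hxy)]
  refine ⟨_, _, _, hvis, hvis, hvis, hc, ho, ho, ex, ey, ey, ex, ?_, ?_⟩ <;>
  · rw [hdbl, card_pair hxy]

end TwoWalk
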