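import Mathlib
import Pool.Agent.Helper39.TW.Stmts
import Pool.Agent.Helper38.PL.Drawing

/-! A graph with a plane drawing has no `K_{3,3}` minor, in the language of the two-walk modules. -/

set_option autoImplicit false

namespace TwoWalk

open Finset

variable {V : Type} [DecidableEq V]

/-- a reachable vertex of the induced graph, for a set without empty cut -/
theorem PLAN_reach {G : SimpleGraph V} {A : Finset V} (h : Conn G A)
    (u v : (A : Set V)) : (G.induce (A : Set V)).Reachable u v := by
  classical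
  by_contra hc
  set B : Finset V := A.filter
    (fun w => ∃ hw : w ∈ (A : Set V), (G.induce (A : Set V)).Reachable u ⟨w, hw⟩) with hB
  have huB : (u : V) ∈ B := by
    rw [hB, mem_filter]
    exact ⟨u.2, u.2, SimpleGraph.Reachable.refl _⟩
  have hne : B ≠ A := by
    intro he
    have hv : (v : V) ∈ B := by
      rw [he]
      exact v.2
    rw [hB, mem_filter] at hv
    obtain ⟨-, hw, hr⟩ := hv
    exact hc hr
  obtain ⟨a, ha, b, hb, hab⟩ := h.2 B (filter_subset _ _) ⟨u, huB⟩ hne
  rw [mem_sdiff] at hb
  apply hb.2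
  rw [hB, mem_filter] at ha ⊢
  obtain ⟨haA, hwa, hra⟩ := ha
  refine ⟨hb.1, hb.1, hra.trans ?_⟩
  apply SimpleGraph.Adj.reachable
  exact hab

theorem PLAN_conn {G : SimpleGraph V} {A : Finset V} (h : Conn G A) :
    (G.induce (A : Set V)).Connected := by
  obtain ⟨a, ha⟩ := h.1
  have : Nonempty (A : Set V) := ⟨⟨a, ha⟩⟩
  exact ⟨fun u v => PLAN_reach h u v⟩

theorem PLAN_conn' {G : SimpleGraph V} {A : Finset V} (h : (G.induce (A : Set V)).Connected) :
    Conn G A := by
  obtain ⟨⟨a, ha⟩⟩ := h.nonempty
  refine ⟨⟨a, ha⟩, ?_⟩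
  intro B hBA hBne hne
  by_contra hc
  obtain ⟨b, hb⟩ := hBne
  have key : ∀ u v : (A : Set V), (G.induce (A : Set V)).Walk u v → (u : V) ∈ B → (v : V) ∈ B := by
    intro u v w
    induction w with
    | nil => exact id
    | @cons x y z hxy _ ih =>
      intro hx
      apply ih
      by_contra hy
      apply hc
      exact ⟨x, hx, y, mem_sdiff.mpr ⟨y.2, hy⟩, hxy⟩
  apply hne
  apply Subset.antisymm hBA
  intro v hv
  obtain ⟨w⟩ := h.preconnected ⟨b, hBA hb⟩ ⟨v, hv⟩
  exact key _ _ w hb

/-- a graph with a plane drawing has no `K_{3,3}` minor -/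
theorem st_PLAN (G : SimpleGraph V) (hG : Pool.Agent.Helper38.PL.PlaneDrawn G) : NoK33 G := by
  intro X1 X2 X3 Y1 Y2 Y3 hd hc ha
  simp only [List.pairwise_cons, List.mem_cons, List.not_mem_nil, or_false, forall_eq_or_imp,
    forall_eq, IsEmpty.forall_iff, implies_true, List.Pairwise.nil, and_true] at hd hc ha
  obtain ⟨⟨d12, d13, e11, e12, e13⟩, ⟨d23, e21, e22, e23⟩, ⟨e31, e32, e33⟩, ⟨f12, f13⟩, f23⟩ := hd
  obtain ⟨c1, c2, c3, k1, k2, k3⟩ := hc
  obtain ⟨⟨a11, a12, a13⟩, ⟨a21, a22, a23⟩, a31, a32, a33⟩ := ha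
  refine hG.no_K33 ![(X1 : Set V), X2, X3] ![(Y1 : Set V), Y2, Y3] ⟨?_, ?_, ?_, ?_, ?_, ?_⟩
  · intro i
    fin_cases i
    · exact PLAN_conn c1
    · exact PLAN_conn c2
    · exact PLAN_conn c3
  · intro j
    fin_cases j
    · exact PLAN_conn k1
    · exact PLAN_conn k2
    · exact PLAN_conn k3
  · intro i k hik
    fin_cases i <;> fin_cases k <;> first
      | exact absurd rfl hik
      | exact disjoint_coe.mpr d12
      | exact disjoint_coe.mpr d13
      | exact disjoint_coe.mpr d23
      | exact (disjoint_coe.mpr d12).symm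
      | exact (disjoint_coe.mpr d13).symm
      | exact (disjoint_coe.mpr d23).symm
  · intro i k hik
    fin_cases i <;> fin_cases k <;> first
      | exact absurd rfl hik
      | exact disjoint_coe.mpr f12
      | exact disjoint_coe.mpr f13
      | exact disjoint_coe.mpr f23
      | exact (disjoint_coe.mpr f12).symm
      | exact (disjoint_coe.mpr f13).symm
      | exact (disjoint_coe.mpr f23).symm
  · intro i j
    fin_cases i <;> fin_cases j
    · exact disjoint_coe.mpr e11
    · exact disjoint_coe.mpr e12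
    · exact disjoint_coe.mpr e13
    · exact disjoint_coe.mpr e21
    · exact disjoint_coe.mpr e22
    · exact disjoint_coe.mpr e23
    · exact disjoint_coe.mpr e31
    · exact disjoint_coe.mpr e32
    · exact disjoint_coe.mpr e33
  · intro i j
    fin_cases i <;> fin_cases j
    · exact a11
    · exact a12
    · exact a13
    · exact a21
    · exact a22
    · exact a23
    · exact a31
    · exact a32
    · exact a33

/-- 3-connectedness in the wording of the frozen statement -/
theorem PLAN_con3 [Fintype V] (G : SimpleGraph V)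
    (h : ∀ S : Finset V, S.card ≤ 2 → (G.induce {v | v ∉ S}).Connected) : Con3 G := by
  intro T hT
  apply PLAN_conn'
  have : ((Tᶜ : Finset V) : Set V) = {v | v ∉ T} := by
    ext v
    simp
  rw [this]
  exact h T hT

end TwoWalk
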