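import Mathlib
import Pool.Agent.Helper39.TW.Lib

/-! Module T: chains, ears and the core. -/

set_option autoImplicit false

namespace TwoWalk

open Finset

theorem st_T3 : ST_T3 := by
  classical
  intro V _ G X x y hX hx hy
  let F := X.powerset.filter (fun P => Conn G P ∧ x ∈ P ∧ y ∈ P)
  have hF : F.Nonempty := ⟨X, mem_filter.2 ⟨mem_powerset.2 subset_rfl, hX, hx, hy⟩⟩
  obtain ⟨P, hP, hmin⟩ := exists_min_image F card hF
  obtain ⟨hPX, hPc, hxP, hyP⟩ := mem_filter.1 hP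
  rw [mem_powerset] at hPX
  refine ⟨P, hPX, hPc, hxP, hyP, ?_⟩
  intro z hz D hD
  by_contra hcon
  rw [not_or] at hcon
  have h1 : Conn G (P \ D) := hD.conn_sdiff hPc hz
  have h2 : P \ D ∈ F := mem_filter.2 ⟨mem_powerset.2 (sdiff_subset.trans hPX), h1,
    mem_sdiff.2 ⟨hxP, hcon.1⟩, mem_sdiff.2 ⟨hyP, hcon.2⟩⟩
  have h3 := hmin _ h2
  obtain ⟨d, hd⟩ := hD.nonempty
  have h4 : P \ D ⊂ P := by
    refine ⟨sdiff_subset, fun h => ?_⟩
    exact (mem_sdiff.1 (h (hD.subset_erase hd))).2 hd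
  exact absurd (card_lt_card h4) (not_lt.mpr h3)

/-- (T4): an ear -/
theorem T_ear {V : Type} [DecidableEq V] {G : SimpleGraph V} {X K E : Finset V} {x y : V}
    (hK : Ch G K x y) (hKX : K ⊆ X) (hE : IsComp G (X \ K) E)
    (h2 : ∃ k ∈ K, ∃ l ∈ K, k ≠ l ∧ (∃ e ∈ E, G.Adj e k) ∧ ∃ e ∈ E, G.Adj e l) :
    ∃ K', K ⊂ K' ∧ K' ⊆ X ∧ Ch G K' x y := by
  classical
  let F := E.powerset.filter (fun P => Conn G P ∧
    ∃ k ∈ K, ∃ l ∈ K, k ≠ l ∧ (∃ e ∈ P, G.Adj e k) ∧ ∃ e ∈ P, G.Adj e l)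
  have hF : F.Nonempty := ⟨E, mem_filter.2 ⟨mem_powerset.2 subset_rfl, hE.conn, h2⟩⟩
  obtain ⟨P, hP, hmin⟩ := exists_min_image F card hF
  obtain ⟨hPE, hPc, k, hk, l, hl, hkl, ⟨p, hp, hpk⟩, ⟨q, hq, hql⟩⟩ := mem_filter.1 hP
  rw [mem_powerset] at hPE
  have hPX : P ⊆ X \ K := hPE.trans hE.subset
  have hdis : ∀ v ∈ P, v ∉ K := fun v hv => (mem_sdiff.1 (hPX hv)).2
  obtain ⟨p₀, hp₀⟩ := hPc.1
  refine ⟨K ∪ P, ⟨subset_union_left, fun h => hdis p₀ hp₀ (h (mem_union_right _ hp₀))⟩,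
    union_subset hKX (hPX.trans sdiff_subset), ?_⟩
  refine ⟨hK.conn.union hPc (Or.inl ⟨k, hk, p, hp, hpk.symm⟩), mem_union_left _ hK.left_mem,
    mem_union_left _ hK.right_mem, ?_⟩
  intro z hz D hD
  rcases mem_union.1 hz with hzK | hzP
  · -- `z ∈ K`
    by_cases hDK : ∃ v ∈ D, v ∈ K
    · obtain ⟨v, hvD, hvK⟩ := hDK
      have hvz : v ≠ z := fun h => hD.notMem_erase (h ▸ hvD)
      obtain ⟨D', hD', hvD'⟩ := exists_comp (G := G) (mem_erase.2 ⟨hvz, hvK⟩)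
      have hsub : D' ⊆ D := by
        refine hD.subset_of_mem hD'.conn ?_ hvD' hvD
        intro w hw
        have hw' := mem_erase.1 (hD'.subset hw)
        exact mem_erase.2 ⟨hw'.1, mem_union_left _ hw'.2⟩
      rcases hK.comp_mem hzK hD' with h | h
      · exact Or.inl (hsub h)
      · exact Or.inr (hsub h)
    · exfalso
      obtain ⟨d, hd⟩ := hD.nonempty
      have hdP : d ∈ P := by
        rcases mem_union.1 (hD.subset_erase hd) with h | h
        · exact absurd ⟨d, hd, h⟩ hDK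
        · exact h
      have hPsub : P ⊆ (K ∪ P).erase z := by
        intro v hv
        exact mem_erase.2 ⟨fun h => hdis v hv (h ▸ hzK), mem_union_right _ hv⟩
      have hPD : P ⊆ D := hD.subset_of_mem hPc hPsub hdP hd
      by_cases hkz : k = z
      · have hlz : l ≠ z := fun h => hkl (hkz.trans h.symm)
        exact hDK ⟨l, hD.mem_of_adj (hPD hq) (mem_erase.2 ⟨hlz, mem_union_left _ hl⟩) hql, hl⟩
      · exact hDK ⟨k, hD.mem_of_adj (hPD hp) (mem_erase.2 ⟨hkz, mem_union_left _ hk⟩) hpk, hk⟩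
  · -- `z ∈ P`
    have hzK : z ∉ K := hdis z hzP
    have hKsub : K ⊆ (K ∪ P).erase z := by
      intro v hv
      exact mem_erase.2 ⟨fun h => hzK (h ▸ hv), mem_union_left _ hv⟩
    by_cases hDK : ∃ v ∈ D, v ∈ K
    · obtain ⟨v, hvD, hvK⟩ := hDK
      exact Or.inl (hD.subset_of_mem hK.conn hKsub hvK hvD hK.left_mem)
    · exfalso
      have hDP : D ⊆ P := by
        intro d hd
        rcases mem_union.1 (hD.subset_erase hd) with h | h
        · exact absurd ⟨d, hd, h⟩ hDK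
        · exact h
      have hnoadj : ∀ d ∈ D, ∀ v ∈ K, ¬ G.Adj d v := by
        intro d hd v hv hdv
        exact hDK ⟨v, hD.mem_of_adj hd (hKsub hv) hdv, hv⟩
      have hc : Conn G (P \ D) := by
        refine conn_sdiff_hang hPc hDP hzP hD.notMem_erase ?_
        intro d hd v hv hvD hdv
        exact hD.eq_of_adj_erase hd (mem_union_right _ hv) hvD hdv
      have hmem : P \ D ∈ F := by
        refine mem_filter.2 ⟨mem_powerset.2 (sdiff_subset.trans hPE), hc, k, hk, l, hl, hkl,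
          ⟨p, mem_sdiff.2 ⟨hp, fun h => hnoadj p h k hk hpk⟩, hpk⟩,
          ⟨q, mem_sdiff.2 ⟨hq, fun h => hnoadj q h l hl hql⟩, hql⟩⟩
      have h3 := hmin _ hmem
      obtain ⟨d, hd⟩ := hD.nonempty
      have h4 : P \ D ⊂ P := ⟨sdiff_subset, fun h => (mem_sdiff.1 (h (hDP hd))).2 hd⟩
      exact absurd (card_lt_card h4) (not_lt.mpr h3)

theorem st_T5 : ST_T5 := by
  classical
  intro V _ G X K₀ x y hX hK₀X hK₀
  let F := X.powerset.filter (fun K => K₀ ⊆ K ∧ Ch G K x y)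
  have hF : F.Nonempty := ⟨K₀, mem_filter.2 ⟨mem_powerset.2 hK₀X, subset_rfl, hK₀⟩⟩
  obtain ⟨K, hK, hmax⟩ := exists_max_image F card hF
  obtain ⟨hKX, hK₀K, hKc⟩ := mem_filter.1 hK
  rw [mem_powerset] at hKX
  refine ⟨K, hK₀K, hKX, hKc, ?_⟩
  intro E hE
  have hEX : E ⊆ X := hE.subset.trans sdiff_subset
  have hxE : x ∉ E := fun h => (mem_sdiff.1 (hE.subset h)).2 hKc.left_mem
  obtain ⟨a, ha, b, hb, hab⟩ := hX.2 E hEX hE.nonempty
    (fun h => hxE (h ▸ hKX hKc.left_mem))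
  rw [mem_sdiff] at hb
  have hbK : b ∈ K := by
    by_contra hbK
    exact hb.2 (hE.mem_of_adj ha (mem_sdiff.2 ⟨hb.1, hbK⟩) hab)
  refine ⟨b, hbK, ⟨a, ha, hab⟩, ?_⟩
  intro e he v hv hev
  by_contra hne
  obtain ⟨K', hKK', hK'X, hK'c⟩ := T_ear hKc hKX hE
    ⟨v, hv, b, hbK, hne, ⟨e, he, hev⟩, ⟨a, ha, hab⟩⟩
  have h3 := hmax K' (mem_filter.2 ⟨mem_powerset.2 hK'X, hK₀K.trans hKK'.subset, hK'c⟩)
  exact absurd (card_lt_card hKK') (not_lt.mpr h3)

end TwoWalk
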